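import Pool.Agent.X3.P4.Lists

/-!
# Linear forms which take power-of-4 values on the four-square representations of all squares
-/

set_option autoImplicit false

namespace Pool.Agent.Results.MP_42cda2_nt.OnlyOneTwoThree

open Pool.Agent.X3.P4

/-- Property (P): for every `n ≥ 1` there are natural numbers `x, y, z, w` with
`n ^ 2 = x ^ 2 + y ^ 2 + z ^ 2 + w ^ 2` and `a x + b y + c z` a power of four. -/
def PropP (a b c : ℕ) : Prop :=
  ∀ n : ℕ, 0 < n → ∃ x y z w : ℕ, n ^ 2 = x ^ 2 + y ^ 2 + z ^ 2 + w ^ 2 ∧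
    ∃ k : ℕ, a * x + b * y + c * z = 4 ^ k

lemma PropP.swap12 {a b c : ℕ} (h : PropP a b c) : PropP b a c := by
  intro n hn
  obtain ⟨x, y, z, w, h1, k, h2⟩ := h n hn
  exact ⟨y, x, z, w, by omega, k, by omega⟩

lemma PropP.swap23 {a b c : ℕ} (h : PropP a b c) : PropP a c b := by
  intro n hn
  obtain ⟨x, y, z, w, h1, k, h2⟩ := h n hn
  exact ⟨x, z, y, w, by omega, k, by omega⟩

/-- membership in the computed lists -/
lemma mem_forms {n x y z w : ℕ} (h : n ^ 2 = x ^ 2 + y ^ 2 + z ^ 2 + w ^ 2)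
    (hg : 1024 % (Nat.gcd x (Nat.gcd y z)) = 0) (h0 : 0 < x + y + z) :
    (⟨x, y, z, 0, false⟩ : Fm) ∈ forms n := by
  have hx : x ≤ n := by nlinarith
  have hy : y ≤ n := by nlinarith
  have hz : z ≤ n := by nlinarith
  have hw : w ≤ n := by nlinarith
  unfold forms
  rw [List.mem_flatMap]
  refine ⟨x, List.mem_range.2 (by omega), ?_⟩
  rw [List.mem_flatMap]
  refine ⟨y, List.mem_range.2 (by omega), ?_⟩
  rw [List.mem_filterMap]
  refine ⟨z, List.mem_range.2 (by omega), ?_⟩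
  have h' : n * n = x * x + y * y + z * z + w * w := by simpa [pow_two] using h
  have e1 : Nat.ble (x * x + y * y + z * z) (n * n) = true := by
    rw [Nat.ble_eq, h']; exact Nat.le_add_right _ _
  have e2 : ((List.range (n + 1)).any fun w => Nat.beq (x * x + y * y + z * z + w * w) (n * n)) =
      true := by
    rw [List.any_eq_true]
    refine ⟨w, List.mem_range.2 (by omega), ?_⟩
    rw [Nat.beq_eq, h']
  have e3 : Nat.beq (1024 % (Nat.gcd x (Nat.gcd y z))) 0 = true := by rw [hg]; rfl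
  have e4 : Nat.blt 0 (x + y + z) = true := by
    rw [Nat.blt_eq]; exact h0
  rw [e1, e2, e3, e4]
  rfl

lemma pow_gcd {n x y z w a b c k : ℕ} (hn : n ≤ 1000) (h : n ^ 2 = x ^ 2 + y ^ 2 + z ^ 2 + w ^ 2)
    (hk : a * x + b * y + c * z = 4 ^ k) :
    1024 % (Nat.gcd x (Nat.gcd y z)) = 0 ∧ 0 < x + y + z := by
  have h0 : 0 < x + y + z := by
    by_contra hcon
    have hx : x = 0 := by omega
    have hy : y = 0 := by omega
    have hz : z = 0 := by omega
    subst hx hy hz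
    have : 0 < 4 ^ k := by positivity
    omega
  refine ⟨?_, h0⟩
  set g := Nat.gcd x (Nat.gcd y z) with hg
  have hgx : g ∣ x := Nat.gcd_dvd_left _ _
  have hgy : g ∣ y := (Nat.gcd_dvd_right _ _).trans (Nat.gcd_dvd_left _ _)
  have hgz : g ∣ z := (Nat.gcd_dvd_right _ _).trans (Nat.gcd_dvd_right _ _)
  have hgk : g ∣ 2 ^ (2 * k) := by
    have : g ∣ 4 ^ k := by
      rw [← hk]
      exact dvd_add (dvd_add (hgx.mul_left a) (hgy.mul_left b)) (hgz.mul_left c)
    rwa [show (4 : ℕ) = 2 ^ 2 by norm_num, ← pow_mul] at this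
  obtain ⟨j, _, hj⟩ := (Nat.dvd_prime_pow Nat.prime_two).1 hgk
  have hgn : g ≤ 1000 := by
    rcases Nat.eq_zero_or_pos x with hx0 | hx0
    · rcases Nat.eq_zero_or_pos y with hy0 | hy0
      · have hz0 : 0 < z := by omega
        exact (Nat.le_of_dvd hz0 hgz).trans (by nlinarith)
      · exact (Nat.le_of_dvd hy0 hgy).trans (by nlinarith)
    · exact (Nat.le_of_dvd hx0 hgx).trans (by nlinarith)
  rw [hj] at hgn ⊢
  have hj10 : j ≤ 9 := by
    by_contra hcon
    push Not at hcon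
    have : 2 ^ 10 ≤ 2 ^ j := Nat.pow_le_pow_right (by norm_num) (by omega)
    omega
  interval_cases j <;> norm_num

lemma list_spec {a b c : ℕ} (h : PropP a b c) {n : ℕ} (hn : 0 < n) (hn' : n ≤ 1000) {L : List Fm}
    (hL : eqL (forms n) L = true) : ∃ f ∈ L, Holds f a b c := by
  obtain ⟨x, y, z, w, h1, k, h2⟩ := h n hn
  obtain ⟨hg, h0⟩ := pow_gcd hn' h1 h2
  rw [← eqL_eq hL]
  refine ⟨⟨x, y, z, 0, false⟩, mem_forms h1 hg h0, ?_⟩
  refine ⟨k, ?_⟩
  show 0 + (x * a + (y * b + z * c)) = 4 ^ k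
  rw [← h2]
  ring

/-- the core case -/
lemma core {a b c : ℕ} (h : PropP a b c) (hb : b ≠ 0) (hc : c ≠ 0)
    (hd : ¬ (a % 4 = 0 ∧ b % 4 = 0 ∧ c % 4 = 0)) (ha : ∃ k, a = 4 ^ k)
    (h2 : (∃ k, 2 * b = 4 ^ k) ∨ ∃ k, a + b + c = 4 ^ k) : a = 1 ∧ b = 2 ∧ c = 3 := by
  have hgood := root_sound root_true a b c hd
  have hPS : PS startL.s a b c := by
    intro L hL
    have hs : startL.s = [[⟨1, 0, 0, 0, false⟩], [⟨0, 2, 0, 0, false⟩, ⟨1, 1, 1, 0, false⟩], L3,
      L6, L7, L9, L11, L13, L18, L22, L23, L26, L29] := rfl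
    rw [hs] at hL
    simp only [List.mem_cons, List.not_mem_nil, or_false] at hL
    rcases hL with rfl | rfl | rfl | rfl | rfl | rfl | rfl | rfl | rfl | rfl | rfl | rfl | rfl
    · refine ⟨⟨1, 0, 0, 0, false⟩, by simp, ?_⟩
      obtain ⟨k, hk⟩ := ha
      refine ⟨k, ?_⟩
      show 0 + (1 * a + (0 * b + 0 * c)) = 4 ^ k
      omega
    · rcases h2 with ⟨k, hk⟩ | ⟨k, hk⟩
      · refine ⟨⟨0, 2, 0, 0, false⟩, by simp, k, ?_⟩
        show 0 + (0 * a + (2 * b + 0 * c)) = 4 ^ k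
        omega
      · refine ⟨⟨1, 1, 1, 0, false⟩, by simp, k, ?_⟩
        show 0 + (1 * a + (1 * b + 1 * c)) = 4 ^ k
        omega
    · exact list_spec h (by norm_num) (by norm_num) c3
    · exact list_spec h (by norm_num) (by norm_num) c6
    · exact list_spec h (by norm_num) (by norm_num) c7
    · exact list_spec h (by norm_num) (by norm_num) c9
    · exact list_spec h (by norm_num) (by norm_num) c11
    · exact list_spec h (by norm_num) (by norm_num) c13
    · exact list_spec h (by norm_num) (by norm_num) c18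
    · exact list_spec h (by norm_num) (by norm_num) c22
    · exact list_spec h (by norm_num) (by norm_num) c23
    · exact list_spec h (by norm_num) (by norm_num) c26
    · exact list_spec h (by norm_num) (by norm_num) c29
  have := hgood hPS (Or.inr hb) (Or.inr hc)
  have hsol : startL.sol = [(1, 2, 3)] := rfl
  rw [hsol, List.mem_singleton] at this
  simpa using this

/-- with `n = 1`: one of the coefficients is a power of four -/
lemma case_one {a b c : ℕ} (h : PropP a b c) :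
    (∃ k, a = 4 ^ k) ∨ (∃ k, b = 4 ^ k) ∨ ∃ k, c = 4 ^ k := by
  obtain ⟨x, y, z, w, h1, k, h2⟩ := h 1 (by norm_num)
  have hx : x ≤ 1 := by nlinarith
  have hy : y ≤ 1 := by nlinarith
  have hz : z ≤ 1 := by nlinarith
  have hpos : 0 < 4 ^ k := by positivity
  interval_cases x <;> interval_cases y <;> interval_cases z <;> simp at h1 h2 <;>
    first
      | (exfalso; omega)
      | exact Or.inl ⟨k, by omega⟩
      | exact Or.inr (Or.inl ⟨k, by omega⟩)
      | exact Or.inr (Or.inr ⟨k, by omega⟩)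

lemma two_pow_ne {i k : ℕ} : 2 * 4 ^ i ≠ 4 ^ k := by
  intro h
  have h1 : 2 ^ (2 * i + 1) = 2 ^ (2 * k) := by
    rw [pow_succ, pow_mul, pow_mul]
    norm_num
    omega
  have := Nat.pow_right_injective (le_refl 2) h1
  omega

/-- with `n = 2` -/
lemma case_two {a b c : ℕ} (h : PropP a b c) (ha : ∃ k, a = 4 ^ k) :
    (∃ k, 2 * b = 4 ^ k) ∨ (∃ k, 2 * c = 4 ^ k) ∨ ∃ k, a + b + c = 4 ^ k := by
  obtain ⟨x, y, z, w, h1, k, h2⟩ := h 2 (by norm_num)
  obtain ⟨i, hi⟩ := ha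
  have hx : x ≤ 2 := by nlinarith
  have hy : y ≤ 2 := by nlinarith
  have hz : z ≤ 2 := by nlinarith
  have hw : w ≤ 2 := by nlinarith
  have hpos : 0 < 4 ^ k := by positivity
  have hne : 2 * a ≠ 4 ^ k := by rw [hi]; exact two_pow_ne
  interval_cases x <;> interval_cases y <;> interval_cases z <;> interval_cases w <;>
    simp at h1 h2 <;>
    first
      | (exfalso; omega)
      | exact Or.inl ⟨k, by omega⟩
      | exact Or.inr (Or.inl ⟨k, by omega⟩)
      | exact Or.inr (Or.inr ⟨k, by omega⟩)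

lemma main_a {a b c : ℕ} (h : PropP a b c) (hb : b ≠ 0) (hc : c ≠ 0)
    (hd : ¬ (a % 4 = 0 ∧ b % 4 = 0 ∧ c % 4 = 0)) (ha : ∃ k, a = 4 ^ k) :
    ({a, b, c} : Multiset ℕ) = {1, 2, 3} := by
  rcases case_two h ha with h2 | h2 | h2
  · obtain ⟨rfl, rfl, rfl⟩ := core h hb hc hd ha (Or.inl h2)
    rfl
  · obtain ⟨rfl, rfl, rfl⟩ := core h.swap23 hc hb (by omega) ha (Or.inl h2)
    decide
  · obtain ⟨rfl, rfl, rfl⟩ := core h hb hc hd ha (Or.inr h2)
    rfl

/-- **Uniqueness of the triple `(1, 2, 3)`.** If `a, b, c ≥ 1`, if `gcd (a, b, c)` is squarefree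
and if `(a, b, c)` has property (P), then `{a, b, c} = {1, 2, 3}`. -/
theorem result : ∀ a b c : ℕ, 0 < a → 0 < b → 0 < c →
    Squarefree (Nat.gcd a (Nat.gcd b c)) → PropP a b c →
    ({a, b, c} : Multiset ℕ) = {1, 2, 3} := by
  intro a b c ha hb hc hsq h
  have hd : ¬ (a % 4 = 0 ∧ b % 4 = 0 ∧ c % 4 = 0) := by
    rintro ⟨h1, h2, h3⟩
    have h4 : 2 * 2 ∣ Nat.gcd a (Nat.gcd b c) :=
      Nat.dvd_gcd (Nat.dvd_of_mod_eq_zero h1) (Nat.dvd_gcd (Nat.dvd_of_mod_eq_zero h2)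
        (Nat.dvd_of_mod_eq_zero h3))
    have := Nat.isUnit_iff.1 (hsq 2 h4)
    omega
  rcases case_one h with h1 | h1 | h1
  · exact main_a h hb.ne' hc.ne' hd h1
  · have := main_a h.swap12 ha.ne' hc.ne' (by omega) h1
    rw [← this]
    exact Multiset.cons_swap a b {c}
  · have := main_a h.swap23.swap12 ha.ne' hb.ne' (by omega) h1
    rw [← this]
    change a ::ₘ b ::ₘ {c} = c ::ₘ a ::ₘ {b}
    rw [Multiset.cons_swap c a]
    congr 1
    exact Multiset.cons_swap b c 0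

end Pool.Agent.Results.MP_42cda2_nt.OnlyOneTwoThree
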